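import Mathlib

set_option autoImplicit false

namespace HexObs

/-- the linear algebra of one step. -/
lemma decay_real {c s m T L M aL aR T2 L2 M2 aL2 aR2 a a' : ℝ}
    (hs : 0.3826 ≤ s) (hs' : s ≤ 0.3827) (hc : 0.9238 ≤ c) (hc' : c ≤ 0.924)
    (h1 : T + c * M + m * L + s * (aL + aR) = 1) (h2 : -s * M + m * L + c * (aL - aR) = 0)
    (h3 : T2 + c * (L2 + M2) + s * (aL2 + aR2) = 1) (h4 : s * (L2 - M2) + c * (aL2 - aR2) = 0)
    (hT : T ≤ T2) (hM : M ≤ M2) (hL : aL ≤ aL2) (hR : aR ≤ aR2) (ha : a ≤ aL) (ha' : a ≤ aR)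
    (hb : aL2 ≤ a') (hb' : aR2 ≤ a') (h5 : 2 * T ≤ 1 - 2 * s * a) :
    1 - 2 * s * a' ≤ (19 / 20) * (1 - 2 * s * a) := by
  have hd : 0 ≤ a' - a := by linarith
  have p1 : 0 ≤ (c + s) * (M2 - M) := mul_nonneg (by linarith) (by linarith)
  have p2 : 0 ≤ (c + s) * (aR2 - aR) := mul_nonneg (by linarith) (by linarith)
  have e0 : (c - s) * (aL2 - aL - L2) = (T2 - T) + (c + s) * (M2 - M) + (c + s) * (aR2 - aR) := by
    linear_combination (h4 - h2) - (h3 - h1)
  have e1 : 0 ≤ aL2 - aL - L2 := by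
    have h6 : 0 ≤ (c - s) * (aL2 - aL - L2) := by
      rw [e0]
      linarith
    by_contra hcon
    push Not at hcon
    have : (c - s) * (aL2 - aL - L2) < 0 := mul_neg_of_pos_of_neg (by linarith) hcon
    linarith
  have e2 : m * L ≤ (s + c) * (a' - a) := by
    have q0 : m * L = s * L2 - s * (M2 - M) + c * (aL2 - aL) - c * (aR2 - aR) := by
      linear_combination h2 - h4
    have q1 : 0 ≤ s * (aL2 - aL - L2) := mul_nonneg (by linarith) e1
    have q2 : 0 ≤ s * (M2 - M) := mul_nonneg (by linarith) (by linarith)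
    have q3 : 0 ≤ c * (aR2 - aR) := mul_nonneg (by linarith) (by linarith)
    have q4 : 0 ≤ (s + c) * ((a' - a) - (aL2 - aL)) := mul_nonneg (by linarith) (by linarith)
    rw [q0]
    linear_combination q1 + q2 + q3 + q4
  have e3 : s * M ≤ (s + 2 * c) * (a' - a) := by
    have q1 : 0 ≤ c * ((a' - a) - (aL - aR)) := mul_nonneg (by linarith) (by linarith)
    linear_combination e2 + q1 - h2
  have e4 : M ≤ 5.8303 * (a' - a) := by
    have q1 : (s + 2 * c) * (a' - a) ≤ s * (5.8303 * (a' - a)) := by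
      have q2 : 0 ≤ (s * 5.8303 - (s + 2 * c)) * (a' - a) := mul_nonneg (by linarith) hd
      linear_combination q2
    have q3 : s * M ≤ s * (5.8303 * (a' - a)) := e3.trans q1
    exact le_of_mul_le_mul_left q3 (by linarith)
  have e5 : c * M ≤ 5.3872 * (a' - a) := by
    have q1 : c * M ≤ c * (5.8303 * (a' - a)) := mul_le_mul_of_nonneg_left e4 (by linarith)
    have q2 : 0 ≤ (5.3872 - c * 5.8303) * (a' - a) := mul_nonneg (by linarith) hd
    linear_combination q1 + q2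
  have e6 : m * L ≤ 1.3067 * (a' - a) := by
    have q2 : 0 ≤ (1.3067 - (s + c)) * (a' - a) := mul_nonneg (by linarith) hd
    linear_combination e2 + q2
  have e7 : s * (aL + aR) ≤ 2 * s * a' := by
    have q1 : 0 ≤ s * ((a' - aL) + (a' - aR)) := mul_nonneg (by linarith) (by linarith)
    linear_combination q1
  have e8 : 1 - 2 * s * a' - 6.6939 * (a' - a) ≤ T := by linarith
  have e9 : 0.7652 * (a' - a) ≤ 2 * s * a' - 2 * s * a := by
    have q1 : 0 ≤ (2 * s - 0.7652) * (a' - a) := mul_nonneg (by linarith) hd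
    linear_combination q1
  linarith

lemma sum_rpow_le (T : ℕ) {b : ℝ} (hb : 0 < b) (hb1 : b < 1) :
    ∑ t ∈ Finset.range T, ((t : ℝ) + 1) ^ (-b) ≤ (1 - b)⁻¹ * (T : ℝ) ^ (1 - b) := by
  induction T with
  | zero =>
    simp only [Finset.range_zero, Finset.sum_empty]
    exact mul_nonneg (inv_nonneg.2 (by linarith)) (Real.rpow_nonneg (by simp) _)
  | succ T ih =>
    rw [Finset.sum_range_succ]
    have hT : (0 : ℝ) < (T : ℝ) + 1 := by positivity
    have h1 : (T : ℝ) ^ (1 - b) ≤ ((T : ℝ) + 1) ^ (1 - b) * (1 - (1 - b) / ((T : ℝ) + 1)) := by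
      have h2 : (1 + (-(1 / ((T : ℝ) + 1)))) ^ (1 - b) ≤ 1 + (1 - b) * (-(1 / ((T : ℝ) + 1))) := by
        apply rpow_one_add_le_one_add_mul_self
        · have : 1 / ((T : ℝ) + 1) ≤ 1 := by
            rw [div_le_one hT]
            have : (0 : ℝ) ≤ T := Nat.cast_nonneg T
            linarith
          linarith
        · linarith
        · linarith
      have h3 : (T : ℝ) = ((T : ℝ) + 1) * (1 + (-(1 / ((T : ℝ) + 1)))) := by
        field_simp
        ring
      have h4 : 0 ≤ 1 + (-(1 / ((T : ℝ) + 1))) := by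
        have : 1 / ((T : ℝ) + 1) ≤ 1 := by
          rw [div_le_one hT]
          have : (0 : ℝ) ≤ T := Nat.cast_nonneg T
          linarith
        linarith
      calc (T : ℝ) ^ (1 - b) = (((T : ℝ) + 1) * (1 + (-(1 / ((T : ℝ) + 1))))) ^ (1 - b) := by rw [← h3]
        _ = ((T : ℝ) + 1) ^ (1 - b) * (1 + (-(1 / ((T : ℝ) + 1)))) ^ (1 - b) := Real.mul_rpow hT.le h4
        _ ≤ ((T : ℝ) + 1) ^ (1 - b) * (1 + (1 - b) * (-(1 / ((T : ℝ) + 1)))) :=
            mul_le_mul_of_nonneg_left h2 (Real.rpow_nonneg hT.le _)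
        _ = ((T : ℝ) + 1) ^ (1 - b) * (1 - (1 - b) / ((T : ℝ) + 1)) := by ring
    have h5 : ((T : ℝ) + 1) ^ (-b) = ((T : ℝ) + 1) ^ (1 - b) / ((T : ℝ) + 1) := by
      have : (-b) = (1 - b) - 1 := by ring
      rw [this, Real.rpow_sub_one hT.ne']
    have h6 : (0 : ℝ) < 1 - b := by linarith
    have h7 := mul_le_mul_of_nonneg_left h1 (inv_nonneg.2 h6.le)
    have h8 : (1 - b)⁻¹ * (((T : ℝ) + 1) ^ (1 - b) * (1 - (1 - b) / ((T : ℝ) + 1))) +
        ((T : ℝ) + 1) ^ (-b) = (1 - b)⁻¹ * ((T : ℝ) + 1) ^ (1 - b) := by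
      rw [h5]
      field_simp
      ring
    push_cast
    linarith

end HexObs
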