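import Pool.Agent.HexDecay.Mirror
import Pool.Agent.HexDecay.Real

set_option autoImplicit false

namespace HexObs

open Complex Finset ENNReal

/-- the trapezoid of height r whose base has half width r and whose sides lean outwards. -/
noncomputable def trO {d0 : Pt} (v0 : Pt) (h0 : d0 ∈ dirs) (r : ℕ) : Finset Pt :=
  quadF v0 h0 r (2 * r + 1) (2 * r + 1) r r

/-- the weight of the walks that do not come back in the trapezoid. -/
noncomputable def fq {d0 : Pt} (v0 : Pt) (h0 : d0 ∈ dirs) (r : ℕ) : ℝ :=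
  1 - 2 * Real.cos (3 * Real.pi / 8) * Wn (trO v0 h0 r) v0 d0 3

lemma sqrt2_bounds : (1.4142 : ℝ) ≤ Real.sqrt 2 ∧ Real.sqrt 2 ≤ (1.41422 : ℝ) := by
  constructor
  · apply Real.le_sqrt_of_sq_le
    norm_num
  · rw [Real.sqrt_le_left (by norm_num)]
    norm_num

lemma cos38_bounds : (0.3826 : ℝ) ≤ Real.cos (3 * Real.pi / 8) ∧ Real.cos (3 * Real.pi / 8) ≤ 0.3827 := by
  have hp : 0 ≤ Real.cos (3 * Real.pi / 8) := cos3_pos.le
  have h2 : Real.cos (3 * Real.pi / 8) ^ 2 = (2 - Real.sqrt 2) / 4 := by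
    have h3 := Real.cos_sq (3 * Real.pi / 8)
    have h4 : 2 * (3 * Real.pi / 8) = Real.pi - Real.pi / 4 := by ring
    rw [h4, Real.cos_pi_sub, Real.cos_pi_div_four] at h3
    rw [h3]
    ring
  obtain ⟨h5, h6⟩ := sqrt2_bounds
  constructor
  · apply le_of_sq_le_sq _ hp
    rw [h2]
    norm_num
    linarith
  · apply le_of_sq_le_sq _ (by norm_num)
    rw [h2]
    norm_num
    linarith

lemma cos8_bounds : (0.9238 : ℝ) ≤ Real.cos (Real.pi / 8) ∧ Real.cos (Real.pi / 8) ≤ 0.924 := by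
  have hp : 0 ≤ Real.cos (Real.pi / 8) := cos_pos.le
  have h2 : Real.cos (Real.pi / 8) ^ 2 = (2 + Real.sqrt 2) / 4 := by
    have h3 := Real.cos_sq (Real.pi / 8)
    have h4 : 2 * (Real.pi / 8) = Real.pi / 4 := by ring
    rw [h4, Real.cos_pi_div_four] at h3
    rw [h3]
    ring
  obtain ⟨h5, h6⟩ := sqrt2_bounds
  constructor
  · apply le_of_sq_le_sq _ hp
    rw [h2]
    norm_num
    linarith
  · apply le_of_sq_le_sq _ (by norm_num)
    rw [h2]
    norm_num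
    linarith

lemma sin8_eq : Real.sin (Real.pi / 8) = Real.cos (3 * Real.pi / 8) := by
  rw [← Real.cos_pi_div_two_sub]
  congr 1
  ring

lemma sin38_eq : Real.sin (3 * Real.pi / 8) = Real.cos (Real.pi / 8) := by
  rw [← Real.cos_pi_div_two_sub]
  congr 1
  ring

lemma sin4_eq : Real.sin (Real.pi / 4) = Real.cos (Real.pi / 4) := by
  rw [Real.sin_pi_div_four, Real.cos_pi_div_four]

lemma quadF_sub {v0 d0 : Pt} (h0 : d0 ∈ dirs) {T p q r s T' p' q' r' s' : ℕ}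
    (h : ∀ a b : ℤ, 0 < a + b → a + b < 3 * T + 2 → a < 3 * p → b < 3 * q → 1 - 3 * (r : ℤ) < a →
      1 - 3 * (s : ℤ) < b → a + b < 3 * T' + 2 ∧ a < 3 * p' ∧ b < 3 * q' ∧ 1 - 3 * (r' : ℤ) < a ∧
      1 - 3 * (s' : ℤ) < b) : quadF v0 h0 T p q r s ⊆ quadF v0 h0 T' p' q' r' s' := by
  intro v hv
  rw [mem_quadF] at hv ⊢
  obtain ⟨⟨h1, h2, h3⟩, ⟨h4, h5⟩, h6, h7⟩ := hv
  have hsum := ip_rot_sum (v - v0) d0
  rw [← hsum] at h2 h3
  obtain ⟨k1, k2, k3, k4, k5⟩ := h _ _ h2 h3 h4 h5 h6 h7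
  rw [hsum] at h2 k1
  exact ⟨⟨h1, h2, k1⟩, ⟨k2, k3⟩, k4, k5⟩

section
variable {v0 d0 : Pt} (h0 : d0 ∈ dirs) {T p q r s : ℕ} (hT : 1 ≤ T) (hp : 1 ≤ p) (hq : 1 ≤ q)
  (hr : 1 ≤ r) (hs : 1 ≤ s)

include hT hp hq hr hs

/-- monotonicity for the walks that come back. -/
lemma Wn_mono3 {T' p' q' r' s' : ℕ} (hsub : quadF v0 h0 T p q r s ⊆ quadF v0 h0 T' p' q' r' s') {n : ℤ}
    (hn : n = 3 ∨ n = -3) : Wn (quadF v0 h0 T p q r s) v0 d0 n ≤ Wn (quadF v0 h0 T' p' q' r' s') v0 d0 n := by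
  apply Wn_mono hsub
  intro t ht hw hmem
  have h1 := (quad_tip h0 hT hp hq hr hs ht).w3 (by rw [hw]; exact hn)
  rw [mem_quadF] at hmem
  have h2 := hmem.1.2.1
  omega

lemma Wn_mono0 {p' q' r' s' : ℕ} (hsub : quadF v0 h0 T p q r s ⊆ quadF v0 h0 T p' q' r' s') :
    Wn (quadF v0 h0 T p q r s) v0 d0 0 ≤ Wn (quadF v0 h0 T p' q' r' s') v0 d0 0 := by
  apply Wn_mono hsub
  intro t ht hw hmem
  have h1 := (quad_tip h0 hT hp hq hr hs ht).w0 hw
  rw [mem_quadF] at hmem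
  have h2 := hmem.1.2.2
  omega

lemma Wn_monoR {T' p' r' s' : ℕ} (hsub : quadF v0 h0 T p q r s ⊆ quadF v0 h0 T' p' q r' s') :
    Wn (quadF v0 h0 T p q r s) v0 d0 (-1) ≤ Wn (quadF v0 h0 T' p' q r' s') v0 d0 (-1) := by
  apply Wn_mono hsub
  intro t ht hw hmem
  have h1 := (quad_tip h0 hT hp hq hr hs ht).w1' hw
  rw [mem_quadF] at hmem
  have h2 := hmem.2.1.2
  omega

/-- the side p is not reached if it is too far away. -/
lemma Wn1_zero (h : T + s < p) : Wn (quadF v0 h0 T p q r s) v0 d0 1 = 0 := by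
  apply Wn_zero
  intro t ht hw
  have h1 := quad_tip h0 hT hp hq hr hs ht
  have h2 := h1.w1 hw
  obtain ⟨⟨k1, k2, k3⟩, ⟨k4, k5⟩, k6, k7⟩ := h1.last
  have hsum := ip_rot_sum (vx v0 d0 t t.length - v0) d0
  have hg := quad_good v0 h0 hT hp hq hr hs
  obtain ⟨⟨a1, a2, a3, a4, a5⟩, ⟨b1, b2, b3, b4⟩, ⟨c1, c2, c3⟩, ⟨e1, e2⟩, f1⟩ := dirs_distinct d0 h0
  have hd : dx d0 t t.length = rotL d0 := by
    rcases hg.wind ht with ⟨_, hw'⟩ | ⟨hd, _⟩ | ⟨_, hw'⟩ | ⟨_, hw'⟩ | ⟨_, hw'⟩ | ⟨_, hw' | hw'⟩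
    · omega
    · exact hd
    · omega
    · omega
    · omega
    · omega
    · omega
  have e0 : tip v0 d0 t - v0 = (vx v0 d0 t t.length - v0) + dx d0 t t.length := by
    rw [h1.step]
    abel
  rw [e0, ip_add_left, hd, ip_rotL_rotL h0] at h2
  omega

/-- the side r is not reached if it is too far away. -/
lemma Wn2'_zero (h : q < r) : Wn (quadF v0 h0 T p q r s) v0 d0 (-2) = 0 := by
  apply Wn_zero
  intro t ht hw
  have h1 := quad_tip h0 hT hp hq hr hs ht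
  have h2 := h1.w2' hw
  obtain ⟨⟨k1, k2, k3⟩, ⟨k4, k5⟩, k6, k7⟩ := h1.last
  have hsum := ip_rot_sum (vx v0 d0 t t.length - v0) d0
  have hg := quad_good v0 h0 hT hp hq hr hs
  have hd : dx d0 t t.length = -rotL d0 := by
    rcases hg.wind ht with ⟨_, hw'⟩ | ⟨_, hw'⟩ | ⟨_, hw'⟩ | ⟨_, hw'⟩ | ⟨hd, _⟩ | ⟨_, hw' | hw'⟩
    · omega
    · omega
    · omega
    · omega
    · rw [hd, rotR_rotR_eq]
    · omega
    · omega
  have e0 : tip v0 d0 t - v0 = (vx v0 d0 t t.length - v0) + dx d0 t t.length := by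
    rw [h1.step]
    abel
  rw [e0, ip_add_left, hd, ip_neg_left, ip_rotL_rotL h0] at h2
  omega

/-- the side s is not reached if it is too far away. -/
lemma Wn2_zero (h : p < s) : Wn (quadF v0 h0 T p q r s) v0 d0 2 = 0 := by
  apply Wn_zero
  intro t ht hw
  have h1 := quad_tip h0 hT hp hq hr hs ht
  have h2 := h1.w2 hw
  obtain ⟨⟨k1, k2, k3⟩, ⟨k4, k5⟩, k6, k7⟩ := h1.last
  have hsum := ip_rot_sum (vx v0 d0 t t.length - v0) d0
  have hg := quad_good v0 h0 hT hp hq hr hs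
  have hd : dx d0 t t.length = -rotR d0 := by
    rcases hg.wind ht with ⟨_, hw'⟩ | ⟨_, hw'⟩ | ⟨_, hw'⟩ | ⟨hd, _⟩ | ⟨_, hw'⟩ | ⟨_, hw' | hw'⟩
    · omega
    · omega
    · omega
    · rw [hd, rotL_rotL_eq]
    · omega
    · omega
    · omega
  have e0 : tip v0 d0 t - v0 = (vx v0 d0 t t.length - v0) + dx d0 t t.length := by
    rw [h1.step]
    abel
  rw [e0, ip_add_left, hd, ip_neg_left, ip_rotR_rotR h0] at h2
  omega

end

lemma trO_sym {v0 d0 : Pt} (h0 : d0 ∈ dirs) (r : ℕ) :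
    Wn (trO v0 h0 r) v0 d0 (-3) = Wn (trO v0 h0 r) v0 d0 3 := by
  unfold trO
  rw [Wn_mirror h0, neg_neg]

/-- ONE STEP: the weight of the walks that do not come back decays from the scale r to the scale 6 r. -/
theorem fq_step {d0 : Pt} (v0 : Pt) (h0 : d0 ∈ dirs) {r : ℕ} (hr : 1 ≤ r) :
    fq v0 h0 (6 * r) ≤ (19 / 20) * fq v0 h0 r := by
  have g1 := quad_good v0 h0 (T := 4 * r) (p := 6 * r + 1) (q := 2 * r) (r := 2 * r + 1) (s := 2 * r)
    (by omega) (by omega) (by omega) (by omega) (by omega)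
  have g2 := quad_good v0 h0 (T := 4 * r) (p := 6 * r) (q := 2 * r) (r := 2 * r + 1) (s := 6 * r + 1)
    (by omega) (by omega) (by omega) (by omega) (by omega)
  have g3 := quad_good v0 h0 (T := 4 * r) (p := 6 * r + 1) (q := 6 * r + 1) (r := 2 * r) (s := 2 * r)
    (by omega) (by omega) (by omega) (by omega) (by omega)
  -- identities
  have i1 := g1.re_identity
  have i2 := g1.im_identity
  have i3 := g2.re_identity
  have i4 := g2.im_identity
  have i5 := g3.re_identity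
  have z1 : Wn (quadF v0 h0 (4 * r) (6 * r + 1) (2 * r) (2 * r + 1) (2 * r)) v0 d0 1 = 0 :=
    Wn1_zero h0 (by omega) (by omega) (by omega) (by omega) (by omega) (by omega)
  have z2 : Wn (quadF v0 h0 (4 * r) (6 * r + 1) (2 * r) (2 * r + 1) (2 * r)) v0 d0 (-2) = 0 :=
    Wn2'_zero h0 (by omega) (by omega) (by omega) (by omega) (by omega) (by omega)
  have z3 : Wn (quadF v0 h0 (4 * r) (6 * r) (2 * r) (2 * r + 1) (6 * r + 1)) v0 d0 2 = 0 :=
    Wn2_zero h0 (by omega) (by omega) (by omega) (by omega) (by omega) (by omega)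
  have z4 : Wn (quadF v0 h0 (4 * r) (6 * r) (2 * r) (2 * r + 1) (6 * r + 1)) v0 d0 (-2) = 0 :=
    Wn2'_zero h0 (by omega) (by omega) (by omega) (by omega) (by omega) (by omega)
  rw [z1, z2] at i1 i2
  rw [z3, z4] at i3 i4
  rw [sin8_eq, sin4_eq, sin38_eq] at i2 i4
  -- inclusions
  have s1 : quadF v0 h0 (4 * r) (6 * r + 1) (2 * r) (2 * r + 1) (2 * r) ⊆
      quadF v0 h0 (4 * r) (6 * r) (2 * r) (2 * r + 1) (6 * r + 1) := by
    apply quadF_sub h0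
    intro a b h1 h2 h3 h4 h5 h6
    push_cast at *
    omega
  have s2 : trO v0 h0 r ⊆ quadF v0 h0 (4 * r) (6 * r + 1) (2 * r) (2 * r + 1) (2 * r) := by
    apply quadF_sub h0
    intro a b h1 h2 h3 h4 h5 h6
    push_cast at *
    omega
  have s3 : quadF v0 h0 (4 * r) (6 * r) (2 * r) (2 * r + 1) (6 * r + 1) ⊆ trO v0 h0 (6 * r) := by
    apply quadF_sub h0
    intro a b h1 h2 h3 h4 h5 h6
    push_cast at *
    omega
  have s4 : quadF v0 h0 (4 * r) (6 * r + 1) (2 * r) (2 * r + 1) (2 * r) ⊆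
      quadF v0 h0 (4 * r) (6 * r + 1) (6 * r + 1) (2 * r) (2 * r) := by
    apply quadF_sub h0
    intro a b h1 h2 h3 h4 h5 h6
    push_cast at *
    omega
  have s5 : quadF v0 h0 (4 * r) (2 * r) (6 * r + 1) (2 * r) (2 * r + 1) ⊆
      quadF v0 h0 (4 * r) (6 * r + 1) (6 * r + 1) (2 * r) (2 * r) := by
    apply quadF_sub h0
    intro a b h1 h2 h3 h4 h5 h6
    push_cast at *
    omega
  have s6 : trO v0 h0 r ⊆ quadF v0 h0 (4 * r) (6 * r + 1) (6 * r + 1) (2 * r) (2 * r) := by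
    apply quadF_sub h0
    intro a b h1 h2 h3 h4 h5 h6
    push_cast at *
    omega
  -- monotonicity
  have m1 := Wn_mono0 h0 (by omega) (by omega) (by omega) (by omega) (by omega) s1
  have m2 := Wn_monoR h0 (by omega) (by omega) (by omega) (by omega) (by omega) s1
  have m3 := Wn_mono3 h0 (by omega) (by omega) (by omega) (by omega) (by omega) s1 (Or.inl rfl)
  have m4 := Wn_mono3 h0 (by omega) (by omega) (by omega) (by omega) (by omega) s1 (Or.inr rfl)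
  have m5 := Wn_mono3 h0 (by omega) (by omega) (by omega) (by omega) (by omega) s2 (Or.inl rfl)
  have m6 := Wn_mono3 h0 (by omega) (by omega) (by omega) (by omega) (by omega) s2 (Or.inr rfl)
  have m7 := Wn_mono3 h0 (by omega) (by omega) (by omega) (by omega) (by omega) s3 (Or.inl rfl)
  have m8 := Wn_mono3 h0 (by omega) (by omega) (by omega) (by omega) (by omega) s3 (Or.inr rfl)
  have m9 := Wn_mono3 h0 (by omega) (by omega) (by omega) (by omega) (by omega) s6 (Or.inl rfl)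
  have m10 := Wn_mono3 h0 (by omega) (by omega) (by omega) (by omega) (by omega) s6 (Or.inr rfl)
  rw [show quadF v0 h0 r (2 * r + 1) (2 * r + 1) r r = trO v0 h0 r from rfl] at m5 m6 m9 m10
  rw [show quadF v0 h0 (6 * r) (2 * (6 * r) + 1) (2 * (6 * r) + 1) (6 * r) (6 * r) = trO v0 h0 (6 * r) from rfl]
    at m7 m8
  rw [trO_sym h0] at m6 m8 m10
  -- the two parallelograms
  have t1 : Wn (quadF v0 h0 (4 * r) (6 * r + 1) (2 * r) (2 * r + 1) (2 * r)) v0 d0 0 +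
      Wn (quadF v0 h0 (4 * r) (2 * r) (6 * r + 1) (2 * r) (2 * r + 1)) v0 d0 0 ≤
      Wn (quadF v0 h0 (4 * r) (6 * r + 1) (6 * r + 1) (2 * r) (2 * r)) v0 d0 0 := by
    apply Wn_add_le s4 s5
    · intro t ht hw hmem
      have h1 := (quad_tip h0 (by omega) (by omega) (by omega) (by omega) (by omega) ht).w0 hw
      rw [mem_quadF] at hmem
      have h2 := hmem.1.2.2
      omega
    · intro t ht hw hmem
      have h1 := (quad_tip h0 (by omega) (by omega) (by omega) (by omega) (by omega) ht).w0 hw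
      rw [mem_quadF] at hmem
      have h2 := hmem.1.2.2
      omega
    · intro t ht ht' hw
      have h1 := quad_tip h0 (by omega) (by omega) (by omega) (by omega) (by omega) ht
      have h2 := quad_tip h0 (by omega) (by omega) (by omega) (by omega) (by omega) ht'
      have h3 := h1.w0 hw
      have hd : dx d0 t t.length = d0 := by
        rcases g1.wind ht with ⟨hd, _⟩ | ⟨_, hw'⟩ | ⟨_, hw'⟩ | ⟨_, hw'⟩ | ⟨_, hw'⟩ | ⟨_, hw' | hw'⟩
        · exact hd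
        · omega
        · omega
        · omega
        · omega
        · omega
        · omega
      have e0 : tip v0 d0 t - v0 = (vx v0 d0 t t.length - v0) + dx d0 t t.length := by
        rw [h1.step]
        abel
      rw [e0, ip_add_left, hd, ip_self_dir h0] at h3
      have k1 := h1.last.2.1.2
      have k2 := h2.last.2.1.1
      have hsum := ip_rot_sum (vx v0 d0 t t.length - v0) d0
      push_cast at *
      omega
  rw [Wn_mirror h0 (4 * r) (2 * r) (6 * r + 1) (2 * r) (2 * r + 1) 0, neg_zero] at t1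
  obtain ⟨hs, hs'⟩ := cos38_bounds
  obtain ⟨hc, hc'⟩ := cos8_bounds
  have hm : 0 ≤ Real.cos (Real.pi / 4) := by
    rw [Real.cos_pi_div_four]
    positivity
  unfold fq
  refine decay_real (c := Real.cos (Real.pi / 8)) (m := Real.cos (Real.pi / 4)) hs hs' hc hc'
    (T := Wn (quadF v0 h0 (4 * r) (6 * r + 1) (2 * r) (2 * r + 1) (2 * r)) v0 d0 0)
    (L := Wn (quadF v0 h0 (4 * r) (6 * r + 1) (2 * r) (2 * r + 1) (2 * r)) v0 d0 2)
    (M := Wn (quadF v0 h0 (4 * r) (6 * r + 1) (2 * r) (2 * r + 1) (2 * r)) v0 d0 (-1))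
    (aL := Wn (quadF v0 h0 (4 * r) (6 * r + 1) (2 * r) (2 * r + 1) (2 * r)) v0 d0 3)
    (aR := Wn (quadF v0 h0 (4 * r) (6 * r + 1) (2 * r) (2 * r + 1) (2 * r)) v0 d0 (-3))
    (T2 := Wn (quadF v0 h0 (4 * r) (6 * r) (2 * r) (2 * r + 1) (6 * r + 1)) v0 d0 0)
    (L2 := Wn (quadF v0 h0 (4 * r) (6 * r) (2 * r) (2 * r + 1) (6 * r + 1)) v0 d0 1)
    (M2 := Wn (quadF v0 h0 (4 * r) (6 * r) (2 * r) (2 * r + 1) (6 * r + 1)) v0 d0 (-1))
    (aL2 := Wn (quadF v0 h0 (4 * r) (6 * r) (2 * r) (2 * r + 1) (6 * r + 1)) v0 d0 3)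
    (aR2 := Wn (quadF v0 h0 (4 * r) (6 * r) (2 * r) (2 * r + 1) (6 * r + 1)) v0 d0 (-3))
    ?_ ?_ ?_ ?_ m1 m2 m3 m4 m5 m6 m7 m8 ?_
  · linear_combination i1
  · linear_combination i2
  · linear_combination i3
  · linear_combination i4
  · -- the top of the large trapezoid
    have n1 := Wn_nonneg (quadF v0 h0 (4 * r) (6 * r + 1) (6 * r + 1) (2 * r) (2 * r)) v0 d0 1
    have n2 := Wn_nonneg (quadF v0 h0 (4 * r) (6 * r + 1) (6 * r + 1) (2 * r) (2 * r)) v0 d0 (-1)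
    have n3 := Wn_nonneg (quadF v0 h0 (4 * r) (6 * r + 1) (6 * r + 1) (2 * r) (2 * r)) v0 d0 2
    have n4 := Wn_nonneg (quadF v0 h0 (4 * r) (6 * r + 1) (6 * r + 1) (2 * r) (2 * r)) v0 d0 (-2)
    have n5 : 0 ≤ Real.cos (Real.pi / 8) * (Wn (quadF v0 h0 (4 * r) (6 * r + 1) (6 * r + 1) (2 * r) (2 * r)) v0 d0 1 +
      Wn (quadF v0 h0 (4 * r) (6 * r + 1) (6 * r + 1) (2 * r) (2 * r)) v0 d0 (-1)) :=
      mul_nonneg (by linarith) (by linarith)
    have n6 : 0 ≤ Real.cos (Real.pi / 4) * (Wn (quadF v0 h0 (4 * r) (6 * r + 1) (6 * r + 1) (2 * r) (2 * r)) v0 d0 2 +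
      Wn (quadF v0 h0 (4 * r) (6 * r + 1) (6 * r + 1) (2 * r) (2 * r)) v0 d0 (-2)) :=
      mul_nonneg hm (by linarith)
    have n7 : Real.cos (3 * Real.pi / 8) * (Wn (trO v0 h0 r) v0 d0 3 + Wn (trO v0 h0 r) v0 d0 3) ≤
        Real.cos (3 * Real.pi / 8) * (Wn (quadF v0 h0 (4 * r) (6 * r + 1) (6 * r + 1) (2 * r) (2 * r)) v0 d0 3 +
        Wn (quadF v0 h0 (4 * r) (6 * r + 1) (6 * r + 1) (2 * r) (2 * r)) v0 d0 (-3)) :=
      mul_le_mul_of_nonneg_left (by linarith) (by linarith)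
    linarith

/-- the scale r weight decreases with r. -/
lemma fq_anti {d0 : Pt} (v0 : Pt) (h0 : d0 ∈ dirs) {r r' : ℕ} (hr : 1 ≤ r) (h : r ≤ r') :
    fq v0 h0 r' ≤ fq v0 h0 r := by
  have s1 : trO v0 h0 r ⊆ trO v0 h0 r' := by
    apply quadF_sub h0
    intro a b h1 h2 h3 h4 h5 h6
    push_cast at *
    omega
  have m1 := Wn_mono3 h0 (by omega) (by omega) (by omega) (by omega) (by omega) s1 (Or.inl rfl)
  rw [show quadF v0 h0 r (2 * r + 1) (2 * r + 1) r r = trO v0 h0 r from rfl,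
    show quadF v0 h0 r' (2 * r' + 1) (2 * r' + 1) r' r' = trO v0 h0 r' from rfl] at m1
  unfold fq
  have h3 := mul_le_mul_of_nonneg_left m1 (by have := cos3_pos; positivity : 0 ≤ 2 * Real.cos (3 * Real.pi / 8))
  linarith

lemma fq_le_one {d0 : Pt} (v0 : Pt) (h0 : d0 ∈ dirs) (r : ℕ) : fq v0 h0 r ≤ 1 := by
  unfold fq
  have h1 := Wn_nonneg (trO v0 h0 r) v0 d0 3
  have h2 := mul_nonneg (by have := cos3_pos; positivity : 0 ≤ 2 * Real.cos (3 * Real.pi / 8)) h1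
  linarith

/-- bridges are not more than the walks that do not come back. -/
lemma bT_le_fq {d0 : Pt} (v0 : Pt) (h0 : d0 ∈ dirs) {r : ℕ} (hr : 1 ≤ r) : bT r ≤ fq v0 h0 r := by
  have g := quad_good v0 h0 (T := r) (p := 2 * r + 1) (q := 2 * r + 1) (r := r) (s := r)
    (by omega) (by omega) (by omega) (by omega) (by omega)
  have h1 := g.Wn_eq.2.2.2.2.2
  have h2 : Ex (quadF v0 h0 r (2 * r + 1) (2 * r + 1) r r) v0 d0 (-d0) ≤ aT r := by
    have h3 : gf (out (quad v0 d0 r (2 * r + 1) (2 * r + 1) r r) v0 d0 (-d0)) ≤ AT r := by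
      rw [← gf_A h0 v0 r]
      apply gf_mono
      intro t ht
      obtain ⟨k1, k2, k3⟩ := ht
      refine ⟨k1.mono (fun v hv => hv.1), ?_, k3⟩
      have ht' : t ∈ exits (quadF v0 h0 r (2 * r + 1) (2 * r + 1) r r) v0 d0 := by
        refine mem_exits.2 ⟨saw_coe.1 ?_, ?_⟩
        · rw [quadF_coe]
          exact k1
        · rw [mem_quadF]
          exact k2
      have k4 := quad_tip h0 (by omega) (by omega) (by omega) (by omega) (by omega) ht'
      obtain ⟨⟨a1, a2, a3, a4, a5⟩, ⟨b1, b2, b3, b4⟩, ⟨c1, c2, c3⟩, ⟨e1, e2⟩, f1⟩ := dirs_distinct d0 h0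
      have k5 : HexObs.wind t = 3 ∨ HexObs.wind t = -3 := by
        rcases g.wind ht' with ⟨hd', _⟩ | ⟨hd', _⟩ | ⟨hd', _⟩ | ⟨hd', _⟩ | ⟨hd', _⟩ | ⟨_, hw'⟩
        · exact absurd (k3.symm.trans hd') a5
        · exact absurd (k3.symm.trans hd') b4
        · exact absurd (k3.symm.trans hd') c3
        · exact absurd (k3.symm.trans hd') e2
        · exact absurd (k3.symm.trans hd') f1
        · exact hw'
      have k6 := k4.w3 k5
      rintro ⟨_, k7, _⟩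
      omega
    rw [← quadF_coe h0, gf_out_coe, ← ofReal_aT hr] at h3
    exact (ENNReal.ofReal_le_ofReal_iff (aT_nonneg r)).1 h3
  have h4 := bT_add_aT hr
  have h5 : Wn (trO v0 h0 r) v0 d0 3 + Wn (trO v0 h0 r) v0 d0 3 ≤ aT r := by
    have h6 := trO_sym (v0 := v0) h0 r
    have h7 : Wn (trO v0 h0 r) v0 d0 3 + Wn (trO v0 h0 r) v0 d0 (-3) ≤ aT r := by
      unfold trO
      rw [h1]
      exact h2
    rwa [h6] at h7
  unfold fq
  have h8 := mul_le_mul_of_nonneg_left h5 cos3_pos.le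
  linarith

/-- geometric decay over the scales 6^j. -/
lemma fq_pow {d0 : Pt} (v0 : Pt) (h0 : d0 ∈ dirs) (j : ℕ) : fq v0 h0 (6 ^ j) ≤ (19 / 20) ^ j := by
  induction j with
  | zero =>
    rw [pow_zero, pow_zero]
    exact fq_le_one v0 h0 1
  | succ j ih =>
    have h1 : 1 ≤ 6 ^ j := Nat.one_le_pow _ _ (by norm_num)
    have h2 := fq_step v0 h0 h1
    rw [show 6 ^ (j + 1) = 6 * 6 ^ j by ring]
    calc fq v0 h0 (6 * 6 ^ j) ≤ (19 / 20) * fq v0 h0 (6 ^ j) := h2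
      _ ≤ (19 / 20) * (19 / 20) ^ j := mul_le_mul_of_nonneg_left ih (by norm_num)
      _ = (19 / 20) ^ (j + 1) := by ring

lemma base_le : (19 / 20 : ℝ) ≤ (6 : ℝ) ^ (-(1 / 35) : ℝ) := by
  have h1 : ((19 / 20 : ℝ) ^ (35 : ℕ)) ≤ (1 / 6 : ℝ) := by norm_num
  have h2 : ((6 : ℝ) ^ (-(1 / 35) : ℝ)) ^ (35 : ℕ) = 1 / 6 := by
    rw [← Real.rpow_natCast, ← Real.rpow_mul (by norm_num)]
    norm_num
  rw [← h2] at h1
  exact le_of_pow_le_pow_left₀ (by norm_num) (Real.rpow_nonneg (by norm_num) _) h1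

lemma fq_le_rpow {d0 : Pt} (v0 : Pt) (h0 : d0 ∈ dirs) {T : ℕ} (hT : 1 ≤ T) :
    fq v0 h0 T ≤ 2 * (T : ℝ) ^ (-(1 / 35) : ℝ) := by
  obtain ⟨j, hj⟩ : ∃ j, j = Nat.log 6 T := ⟨_, rfl⟩
  have h1 : 6 ^ j ≤ T := by
    rw [hj]
    exact Nat.pow_log_le_self 6 (by omega)
  have h2 : T < 6 ^ (j + 1) := by
    rw [hj]
    exact Nat.lt_pow_succ_log_self (by norm_num) T
  have h3 : fq v0 h0 T ≤ (19 / 20) ^ j :=
    (fq_anti v0 h0 (Nat.one_le_pow _ _ (by norm_num)) h1).trans (fq_pow v0 h0 j)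
  have hTp : (0 : ℝ) < T := by exact_mod_cast hT
  have h4 : ((19 / 20 : ℝ)) ^ j ≤ ((6 : ℝ) ^ j) ^ (-(1 / 35) : ℝ) := by
    calc ((19 / 20 : ℝ)) ^ j ≤ ((6 : ℝ) ^ (-(1 / 35) : ℝ)) ^ j := pow_le_pow_left₀ (by norm_num) base_le j
      _ = ((6 : ℝ) ^ j) ^ (-(1 / 35) : ℝ) := by
          rw [← Real.rpow_natCast, ← Real.rpow_natCast, ← Real.rpow_mul (by norm_num), ← Real.rpow_mul (by norm_num),
            mul_comm]
  have h5 : (T : ℝ) / 6 ≤ (6 : ℝ) ^ j := by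
    have h6 : (T : ℝ) < (6 : ℝ) ^ (j + 1) := by exact_mod_cast h2
    rw [pow_succ] at h6
    linarith
  have h6 : ((6 : ℝ) ^ j) ^ (-(1 / 35) : ℝ) ≤ ((T : ℝ) / 6) ^ (-(1 / 35) : ℝ) :=
    Real.rpow_le_rpow_of_nonpos (by positivity) h5 (by norm_num)
  have h7 : ((T : ℝ) / 6) ^ (-(1 / 35) : ℝ) = (T : ℝ) ^ (-(1 / 35) : ℝ) * (6 : ℝ) ^ ((1 / 35) : ℝ) := by
    rw [Real.div_rpow hTp.le (by norm_num), Real.rpow_neg (by norm_num : (0 : ℝ) ≤ 6), div_inv_eq_mul]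
  have h8 : (6 : ℝ) ^ ((1 / 35) : ℝ) ≤ 2 := by
    have h9 : (6 : ℝ) ^ ((1 / 35) : ℝ) ≤ ((2 : ℝ) ^ (35 : ℕ)) ^ ((1 / 35) : ℝ) :=
      Real.rpow_le_rpow (by norm_num) (by norm_num) (by norm_num)
    rw [← Real.rpow_natCast, ← Real.rpow_mul (by norm_num)] at h9
    norm_num at h9
    linarith
  have h9 : 0 ≤ (T : ℝ) ^ (-(1 / 35) : ℝ) := Real.rpow_nonneg hTp.le _
  calc fq v0 h0 T ≤ (T : ℝ) ^ (-(1 / 35) : ℝ) * (6 : ℝ) ^ ((1 / 35) : ℝ) := by
        rw [← h7]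
        exact h3.trans (h4.trans h6)
    _ ≤ (T : ℝ) ^ (-(1 / 35) : ℝ) * 2 := mul_le_mul_of_nonneg_left h8 h9
    _ = 2 * (T : ℝ) ^ (-(1 / 35) : ℝ) := by ring

/-- POLYNOMIAL DECAY of the critical weight of the bridges of height T of the honeycomb lattice. -/
theorem bT_decay {T : ℕ} (hT : 1 ≤ T) : bT T ≤ 2 * (T : ℝ) ^ (-(1 / 35) : ℝ) :=
  (bT_le_fq (0, 0) (show ((0, 1) : Pt) ∈ dirs by decide) hT).trans (fq_le_rpow _ _ hT)

/-- the sum of the weights of the bridges of height at most T. -/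
theorem bT_sum_le (T : ℕ) : ∑ t ∈ Finset.range T, bT (t + 1) ≤ 3 * (T : ℝ) ^ ((34 / 35) : ℝ) := by
  have h1 : ∑ t ∈ Finset.range T, bT (t + 1) ≤ ∑ t ∈ Finset.range T, 2 * ((t : ℝ) + 1) ^ (-(1 / 35) : ℝ) := by
    apply Finset.sum_le_sum
    intro t _
    have := bT_decay (T := t + 1) (by omega)
    push_cast at this
    exact this
  rw [← Finset.mul_sum] at h1
  have h2 := sum_rpow_le T (b := 1 / 35) (by norm_num) (by norm_num)
  have h3 : (1 - (1 / 35 : ℝ)) = 34 / 35 := by norm_num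
  rw [h3] at h2
  have h4 : 0 ≤ (T : ℝ) ^ ((34 / 35) : ℝ) := Real.rpow_nonneg (by positivity) _
  have h5 : ((34 : ℝ) / 35)⁻¹ ≤ 3 / 2 := by norm_num
  have h6 := mul_le_mul_of_nonneg_right h5 h4
  linarith

end HexObs
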