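import Pool.Agent.HexDecay.Quad

set_option autoImplicit false

namespace HexObs

open Complex Finset ENNReal

lemma wind_map_not (t : List Bool) : HexObs.wind (t.map not) = - HexObs.wind t := by
  induction t with
  | nil => rfl
  | cons b t ih =>
    have h1 : ∀ (b : Bool) (s : List Bool), HexObs.wind (b :: s) = sgn b + HexObs.wind s := by
      intro b s
      unfold HexObs.wind
      simp
    rw [List.map_cons, h1, h1, ih]
    cases b
    · show sgn true + _ = -(sgn false + _)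
      simp only [sgn, if_true, Bool.false_eq_true, if_false]
      ring
    · show sgn false + _ = -(sgn true + _)
      simp only [sgn, if_true, Bool.false_eq_true, if_false]
      ring

/-- the reflection in the axis of the start. -/
def reflU (d0 : Pt) : Pt := rotTo (conjE d0) d0

lemma conjE_mem {d0 : Pt} (h0 : d0 ∈ dirs) : conjE d0 ∈ dirs := by
  rw [mem_dirs, nrm_conjE]
  exact mem_dirs.1 h0

lemma reflU_nrm {d0 : Pt} (h0 : d0 ∈ dirs) : nrm (reflU d0) = 1 := nrm_rotTo (conjE_mem h0) h0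

lemma reflU_apply {d0 : Pt} (h0 : d0 ∈ dirs) : mulE (reflU d0) (conjE d0) = d0 := rotTo_apply d0 (conjE_mem h0)

lemma refl_turn {d0 : Pt} (h0 : d0 ∈ dirs) (b : Bool) :
    mulE (reflU d0) (conjE (turn b d0)) = turn (!b) d0 := by
  rw [conjE_turn, mulE_turn, reflU_apply h0]

lemma ip_refl {d0 : Pt} (h0 : d0 ∈ dirs) (p q : Pt) :
    ip (mulE (reflU d0) (conjE p)) (mulE (reflU d0) (conjE q)) = ip p q := by
  rw [ip_mulE, reflU_nrm h0, one_mul, ip_conjE]

lemma cl_reflU {d0 : Pt} (h0 : d0 ∈ dirs) : cl (reflU d0) = 1 := by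
  have h1 : cl (reflU d0) * cl d0 = cl d0 := by
    have h2 := congrArg cl (reflU_apply h0)
    rwa [cl_mulE, cl_conjE] at h2
  have h3 := cl_dir_sq d0 h0
  have h4 : cl (reflU d0) * cl d0 * cl d0 = cl d0 * cl d0 := by rw [h1]
  rw [mul_assoc, h3, mul_one] at h4
  exact h4

lemma quad_refl {v0 d0 : Pt} (h0 : d0 ∈ dirs) (T p q r s : ℕ) (v : Pt) :
    v ∈ quad v0 d0 T p q r s ↔ v0 + mulE (reflU d0) (conjE (v - v0)) ∈ quad v0 d0 T q p s r := by
  have e0 : v0 + mulE (reflU d0) (conjE (v - v0)) - v0 = mulE (reflU d0) (conjE (v - v0)) := by abel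
  have e1 : ip (mulE (reflU d0) (conjE (v - v0))) d0 = ip (v - v0) d0 := by
    conv_lhs => rw [← reflU_apply h0]
    rw [reflU_apply h0]
    conv_lhs => arg 2; rw [← reflU_apply h0]
    exact ip_refl h0 _ _
  have e2 : ip (mulE (reflU d0) (conjE (v - v0))) (rotL d0) = ip (v - v0) (rotR d0) := by
    have h1 : mulE (reflU d0) (conjE (rotR d0)) = rotL d0 := refl_turn h0 false
    rw [← h1]
    exact ip_refl h0 _ _
  have e3 : ip (mulE (reflU d0) (conjE (v - v0))) (rotR d0) = ip (v - v0) (rotL d0) := by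
    have h1 : mulE (reflU d0) (conjE (rotL d0)) = rotR d0 := refl_turn h0 true
    rw [← h1]
    exact ip_refl h0 _ _
  have e4 : IsHex v0 d0 v ↔ IsHex v0 d0 (v0 + mulE (reflU d0) (conjE (v - v0))) := by
    have h1 : cl (v0 + mulE (reflU d0) (conjE (v - v0))) = cl v := by
      rw [cl_add, cl_mulE, cl_conjE, cl_reflU h0, one_mul, cl_sub]
      ring
    unfold IsHex
    rw [h1]
  unfold quad
  simp only [Set.mem_setOf_eq]
  rw [e0, e1, e2, e3, ← e4]
  tauto

lemma exits_mirror {v0 d0 : Pt} (h0 : d0 ∈ dirs) {T p q r s : ℕ} {t : List Bool}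
    (ht : t ∈ exits (quadF v0 h0 T p q r s) v0 d0) : t.map not ∈ exits (quadF v0 h0 T q p s r) v0 d0 := by
  obtain ⟨⟨h1, h2⟩, h3⟩ := mem_exits.1 ht
  have hl : (t.map not).length = t.length := List.length_map _
  have hv : ∀ i, i ≤ t.length + 1 → vx v0 d0 (t.map not) i =
      v0 + mulE (reflU d0) (conjE (vx v0 d0 t i - v0)) := by
    intro i hi
    have := vx_refl (reflU d0) v0 v0 d0 t hi
    rwa [reflU_apply h0] at this
  have hinj : ∀ v w, v0 + mulE (reflU d0) (conjE (v - v0)) = v0 + mulE (reflU d0) (conjE (w - v0)) → v = w := by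
    intro v w h
    have h1 := add_left_cancel h
    have h2 := mulE_inj (reflU_nrm h0) h1
    have h3 := congrArg conjE h2
    rw [conjE_conjE, conjE_conjE] at h3
    exact sub_left_injective h3
  refine mem_exits.2 ⟨⟨?_, ?_⟩, ?_⟩
  · intro i hi hil
    rw [hl] at hil
    rw [hv i (by omega), mem_quadF, ← quad_refl h0, ← mem_quadF h0]
    exact h1 i hi hil
  · intro i k hik hk heq
    rw [hl] at hk
    rw [hv i (by omega), hv k (by omega)] at heq
    exact h2 i k hik hk (hinj _ _ heq)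
  · unfold tip
    rw [hl, hv _ le_rfl, mem_quadF, ← quad_refl h0, ← mem_quadF h0]
    exact h3

/-- mirror images. -/
lemma Wn_mirror {v0 d0 : Pt} (h0 : d0 ∈ dirs) (T p q r s : ℕ) (n : ℤ) :
    Wn (quadF v0 h0 T p q r s) v0 d0 n = Wn (quadF v0 h0 T q p s r) v0 d0 (-n) := by
  unfold Wn
  apply Finset.sum_nbij' (fun t => t.map not) (fun t => t.map not)
  · intro t ht
    rw [Finset.mem_filter] at ht ⊢
    exact ⟨exits_mirror h0 ht.1, by rw [wind_map_not, ht.2]⟩
  · intro t ht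
    rw [Finset.mem_filter] at ht ⊢
    exact ⟨exits_mirror h0 ht.1, by rw [wind_map_not, ht.2, neg_neg]⟩
  · intro t _
    exact map_not_not t
  · intro t _
    exact map_not_not t
  · intro t _
    rw [List.length_map]

lemma Wn_add_le {Ω1 Ω2 Ω : Finset Pt} {v0 d0 : Pt} {n : ℤ} (h1 : Ω1 ⊆ Ω) (h2 : Ω2 ⊆ Ω)
    (t1 : ∀ t ∈ exits Ω1 v0 d0, HexObs.wind t = n → tip v0 d0 t ∉ Ω)
    (t2 : ∀ t ∈ exits Ω2 v0 d0, HexObs.wind t = n → tip v0 d0 t ∉ Ω)
    (hd : ∀ t, t ∈ exits Ω1 v0 d0 → t ∈ exits Ω2 v0 d0 → HexObs.wind t = n → False) :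
    Wn Ω1 v0 d0 n + Wn Ω2 v0 d0 n ≤ Wn Ω v0 d0 n := by
  classical
  unfold Wn
  rw [← Finset.sum_union]
  · apply Finset.sum_le_sum_of_subset_of_nonneg
    · intro t ht
      rw [Finset.mem_union, Finset.mem_filter, Finset.mem_filter] at ht
      rw [Finset.mem_filter]
      rcases ht with ⟨ht, hw⟩ | ⟨ht, hw⟩
      · have h3 := mem_exits.1 ht
        exact ⟨mem_exits.2 ⟨⟨fun i h2 h4 => h1 (h3.1.mem i h2 h4), h3.1.inj⟩, t1 t ht hw⟩, hw⟩
      · have h3 := mem_exits.1 ht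
        exact ⟨mem_exits.2 ⟨⟨fun i h5 h4 => h2 (h3.1.mem i h5 h4), h3.1.inj⟩, t2 t ht hw⟩, hw⟩
    · intro _ _ _
      exact pow_nonneg xc_pos.le _
  · rw [Finset.disjoint_left]
    intro t ht ht'
    rw [Finset.mem_filter] at ht ht'
    exact hd t ht.1 ht'.1 ht.2

end HexObs
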