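import Pool.Agent.HexObs.Lower
import Pool.Agent.HexObs.Sym
import Pool.Agent.HexObs.Im

set_option autoImplicit false

namespace HexObs

open Complex Finset ENNReal

/-! Convex domains of the honeycomb lattice with T rows and up to four lateral sides. -/

/-- the last step of a walk that leaves a lattice polygon. -/
lemma poly_exit {Ω : Set Pt} {v0 d0 : Pt} (h0 : d0 ∈ dirs) (S : Set (Pt × Pt))
    (hS : ∀ s ∈ S, IsSide v0 d0 s) (hΩ : ∀ v, v ∈ Ω ↔ IsHex v0 d0 v ∧ ∀ s ∈ S, 0 < ip (s.1 - v) s.2)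
    (hv1 : v0 + d0 ∈ Ω) {t : List Bool} (hs : Saw Ω v0 d0 t) (hout : tip v0 d0 t ∉ Ω) :
    ∃ s ∈ S, dx d0 t t.length = s.2 ∧ ip (s.1 - tip v0 d0 t) s.2 = 0 ∧ vx v0 d0 t t.length ∈ Ω := by
  have hlen : 1 ≤ t.length := by
    by_contra hcon
    have hz : t.length = 0 := by omega
    have : t = [] := List.length_eq_zero_iff.1 hz
    rw [this] at hout
    exact hout hv1
  have hlast : vx v0 d0 t t.length ∈ Ω := hs.mem _ hlen le_rfl
  have hex : ∃ s ∈ S, ip (s.1 - tip v0 d0 t) s.2 ≤ 0 := by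
    by_contra hcon
    push Not at hcon
    exact hout ((hΩ _).2 ⟨tip_hex v0 d0 t, hcon⟩)
  obtain ⟨s, hs', hsle⟩ := hex
  obtain ⟨s1, s2, s3⟩ := side_step (hS s hs') (vx_hex v0 d0 t t.length) (ds_mem h0 _)
    (((hΩ _).1 hlast).2 s hs') hsle
  exact ⟨s, hs', s1, s3, hlast⟩

/-- T rows; the left boundary: the side number p leaning inwards and the side number s leaning outwards;
the right boundary: the side number q leaning inwards and the side number r leaning outwards. -/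
def quad (v0 d0 : Pt) (T p q r s : ℕ) : Set Pt :=
  {v | (IsHex v0 d0 v ∧ 0 < ip (v - v0) d0 ∧ ip (v - v0) d0 < 3 * T + 2) ∧
    (ip (v - v0) (rotL d0) < 3 * p ∧ ip (v - v0) (rotR d0) < 3 * q) ∧
    1 - 3 * (r : ℤ) < ip (v - v0) (rotL d0) ∧ 1 - 3 * (s : ℤ) < ip (v - v0) (rotR d0)}

lemma quad_finite {v0 d0 : Pt} (h0 : d0 ∈ dirs) (T p q r s : ℕ) : (quad v0 d0 T p q r s).Finite := by
  apply Set.Finite.subset (trap_finite (v0 := v0) h0 T (max p q))
  rintro v ⟨h1, ⟨h2, h3⟩, _⟩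
  have e1 : (p : ℤ) ≤ ((max p q : ℕ) : ℤ) := by exact_mod_cast le_max_left p q
  have e2 : (q : ℤ) ≤ ((max p q : ℕ) : ℤ) := by exact_mod_cast le_max_right p q
  exact ⟨h1, by linarith, by linarith⟩

/-- the same as a finite set. -/
noncomputable def quadF {d0 : Pt} (v0 : Pt) (h0 : d0 ∈ dirs) (T p q r s : ℕ) : Finset Pt :=
  (quad_finite (v0 := v0) h0 T p q r s).toFinset

lemma mem_quadF {v0 d0 : Pt} (h0 : d0 ∈ dirs) {T p q r s : ℕ} {v : Pt} :
    v ∈ quadF v0 h0 T p q r s ↔ v ∈ quad v0 d0 T p q r s := by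
  unfold quadF
  rw [Set.Finite.mem_toFinset]

lemma quadF_coe {v0 d0 : Pt} (h0 : d0 ∈ dirs) (T p q r s : ℕ) :
    ((quadF v0 h0 T p q r s : Finset Pt) : Set Pt) = quad v0 d0 T p q r s := by
  unfold quadF
  rw [Set.Finite.coe_toFinset]

/-- the sides. -/
def quadS (v0 d0 : Pt) (T p q r s : ℕ) : Set (Pt × Pt) :=
  {(v0, -d0), (v0 + d0 + (T : ℤ) • (d0 + rotL d0), d0), (v0 + (p : ℤ) • (d0 + rotL d0), rotL d0),
    (v0 + (q : ℤ) • (d0 + rotR d0), rotR d0), (v0 + d0 - (r : ℤ) • (d0 + rotL d0), -rotL d0),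
    (v0 + d0 - (s : ℤ) • (d0 + rotR d0), -rotR d0)}

lemma cl_sub_smul (v0 d0 : Pt) (n : ℤ) (b : Bool) : cl (v0 + d0 - n • (d0 + turn b d0)) = cl v0 + cl d0 := by
  simp only [cl_sub, cl_add, cl_smul, cl_turn]
  ring

lemma quadS_side {v0 d0 : Pt} (h0 : d0 ∈ dirs) (T p q r s : ℕ) :
    ∀ u ∈ quadS v0 d0 T p q r s, IsSide v0 d0 u := by
  intro u hu
  rcases hu with rfl | rfl | rfl | rfl | rfl | rfl
  · exact ⟨neg_mem_dirs h0, Or.inl ⟨rfl, cl_neg d0⟩⟩
  · refine ⟨h0, Or.inr ⟨?_, rfl⟩⟩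
    simp only [cl_add, cl_smul, cl_rotL]
    ring
  · refine ⟨rotL_mem h0, Or.inl ⟨?_, cl_rotL d0⟩⟩
    simp only [cl_add, cl_smul, cl_rotL]
    ring
  · refine ⟨rotR_mem h0, Or.inl ⟨?_, cl_rotR d0⟩⟩
    simp only [cl_add, cl_smul, cl_rotR]
    ring
  · refine ⟨neg_mem_dirs (rotL_mem h0), Or.inr ⟨cl_sub_smul v0 d0 r true, ?_⟩⟩
    show cl (-rotL d0) = cl d0
    rw [cl_neg, cl_rotL, neg_neg]
  · refine ⟨neg_mem_dirs (rotR_mem h0), Or.inr ⟨cl_sub_smul v0 d0 s false, ?_⟩⟩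
    show cl (-rotR d0) = cl d0
    rw [cl_neg, cl_rotR, neg_neg]

lemma side1 (v0 d0 v : Pt) : ip (v0 - v) (-d0) = ip (v - v0) d0 := by
  rw [ip_neg_right, ← ip_neg_left]
  congr 1
  abel

lemma side2 {d0 : Pt} (h0 : d0 ∈ dirs) (v0 v : Pt) (T : ℤ) :
    ip (v0 + d0 + T • (d0 + rotL d0) - v) d0 = 3 * T + 2 - ip (v - v0) d0 := by
  have : v0 + d0 + T • (d0 + rotL d0) - v = d0 + T • (d0 + rotL d0) - (v - v0) := by abel
  rw [this, ip_sub_left, ip_add_left, ip_smul_left, ip_add_left, ip_self_dir h0, ip_comm (rotL d0), ip_rotL_self h0]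
  ring

lemma side3 {d0 : Pt} (h0 : d0 ∈ dirs) (v0 v : Pt) (p : ℤ) :
    ip (v0 + p • (d0 + rotL d0) - v) (rotL d0) = 3 * p - ip (v - v0) (rotL d0) := by
  have : v0 + p • (d0 + rotL d0) - v = p • (d0 + rotL d0) - (v - v0) := by abel
  rw [this, ip_sub_left, ip_smul_left, ip_add_left, ip_rotL_self h0, ip_rotL_rotL h0]
  ring

lemma side4 {d0 : Pt} (h0 : d0 ∈ dirs) (v0 v : Pt) (q : ℤ) :
    ip (v0 + q • (d0 + rotR d0) - v) (rotR d0) = 3 * q - ip (v - v0) (rotR d0) := by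
  have : v0 + q • (d0 + rotR d0) - v = q • (d0 + rotR d0) - (v - v0) := by abel
  rw [this, ip_sub_left, ip_smul_left, ip_add_left, ip_rotR_self h0, ip_rotR_rotR h0]
  ring

lemma side5 {d0 : Pt} (h0 : d0 ∈ dirs) (v0 v : Pt) (r : ℤ) :
    ip (v0 + d0 - r • (d0 + rotL d0) - v) (-rotL d0) = ip (v - v0) (rotL d0) - (1 - 3 * r) := by
  have : v0 + d0 - r • (d0 + rotL d0) - v = d0 - r • (d0 + rotL d0) - (v - v0) := by abel
  rw [this, ip_neg_right, ip_sub_left, ip_sub_left, ip_smul_left, ip_add_left, ip_rotL_self h0, ip_rotL_rotL h0]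
  ring

lemma side6 {d0 : Pt} (h0 : d0 ∈ dirs) (v0 v : Pt) (s : ℤ) :
    ip (v0 + d0 - s • (d0 + rotR d0) - v) (-rotR d0) = ip (v - v0) (rotR d0) - (1 - 3 * s) := by
  have : v0 + d0 - s • (d0 + rotR d0) - v = d0 - s • (d0 + rotR d0) - (v - v0) := by abel
  rw [this, ip_neg_right, ip_sub_left, ip_sub_left, ip_smul_left, ip_add_left, ip_rotR_self h0, ip_rotR_rotR h0]
  ring

lemma quadS_iff {v0 d0 : Pt} (h0 : d0 ∈ dirs) (T p q r s : ℕ) (v : Pt) :
    v ∈ quad v0 d0 T p q r s ↔ IsHex v0 d0 v ∧ ∀ u ∈ quadS v0 d0 T p q r s, 0 < ip (u.1 - v) u.2 := by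
  constructor
  · rintro ⟨⟨h1, h2, h3⟩, ⟨h4, h5⟩, h6, h7⟩
    refine ⟨h1, ?_⟩
    intro u hu
    rcases hu with rfl | rfl | rfl | rfl | rfl | rfl
    · show 0 < ip (v0 - v) (-d0)
      rw [side1]
      exact h2
    · show 0 < ip (v0 + d0 + (T : ℤ) • (d0 + rotL d0) - v) d0
      rw [side2 h0]
      linarith
    · show 0 < ip (v0 + (p : ℤ) • (d0 + rotL d0) - v) (rotL d0)
      rw [side3 h0]
      linarith
    · show 0 < ip (v0 + (q : ℤ) • (d0 + rotR d0) - v) (rotR d0)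
      rw [side4 h0]
      linarith
    · show 0 < ip (v0 + d0 - (r : ℤ) • (d0 + rotL d0) - v) (-rotL d0)
      rw [side5 h0]
      linarith
    · show 0 < ip (v0 + d0 - (s : ℤ) • (d0 + rotR d0) - v) (-rotR d0)
      rw [side6 h0]
      linarith
  · rintro ⟨h1, h2⟩
    have a1 := h2 (v0, -d0) (by simp [quadS])
    have a2 := h2 (v0 + d0 + (T : ℤ) • (d0 + rotL d0), d0) (by simp [quadS])
    have a3 := h2 (v0 + (p : ℤ) • (d0 + rotL d0), rotL d0) (by simp [quadS])
    have a4 := h2 (v0 + (q : ℤ) • (d0 + rotR d0), rotR d0) (by simp [quadS])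
    have a5 := h2 (v0 + d0 - (r : ℤ) • (d0 + rotL d0), -rotL d0) (by simp [quadS])
    have a6 := h2 (v0 + d0 - (s : ℤ) • (d0 + rotR d0), -rotR d0) (by simp [quadS])
    simp only [] at a1 a2 a3 a4 a5 a6
    rw [side1] at a1
    rw [side2 h0] at a2
    rw [side3 h0] at a3
    rw [side4 h0] at a4
    rw [side5 h0] at a5
    rw [side6 h0] at a6
    exact ⟨⟨h1, a1, by linarith⟩, ⟨by linarith, by linarith⟩, by linarith, by linarith⟩

lemma quad_start {v0 d0 : Pt} (h0 : d0 ∈ dirs) {T p q r s : ℕ} (hT : 1 ≤ T) (hp : 1 ≤ p) (hq : 1 ≤ q)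
    (hr : 1 ≤ r) (hs : 1 ≤ s) : v0 + d0 ∈ quad v0 d0 T p q r s := by
  have e : v0 + d0 - v0 = d0 := by abel
  refine ⟨⟨Or.inr (cl_add v0 d0), ?_, ?_⟩, ⟨?_, ?_⟩, ?_, ?_⟩
  · rw [e, ip_self_dir h0]
    norm_num
  · rw [e, ip_self_dir h0]
    omega
  · rw [e, ip_rotL_self h0]
    omega
  · rw [e, ip_rotR_self h0]
    omega
  · rw [e, ip_rotL_self h0]
    omega
  · rw [e, ip_rotR_self h0]
    omega

lemma quad_good {d0 : Pt} (v0 : Pt) (h0 : d0 ∈ dirs) {T p q r s : ℕ} (hT : 1 ≤ T) (hp : 1 ≤ p) (hq : 1 ≤ q)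
    (hr : 1 ≤ r) (hs : 1 ≤ s) : GoodDom (quadF v0 h0 T p q r s) v0 d0 := by
  apply polygon_good h0 (quadS v0 d0 T p q r s) (quadS_side h0 T p q r s) (by simp [quadS])
  · intro v
    rw [mem_quadF, quadS_iff h0]
  · rw [mem_quadF]
    exact quad_start h0 hT hp hq hr hs

lemma rotL_rotL_eq (d : Pt) : rotL (rotL d) = -rotR d := by
  simp only [rotL, rotR, Prod.neg_mk]
  congr 1 <;> ring

lemma rotR_rotR_eq (d : Pt) : rotR (rotR d) = -rotL d := by
  simp only [rotL, rotR, Prod.neg_mk]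
  congr 1 <;> ring

/-- the place where a walk leaves the domain, by its winding. -/
structure TipAt (v0 d0 : Pt) (T p q r s : ℕ) (t : List Bool) : Prop where
  w0 : HexObs.wind t = 0 → ip (tip v0 d0 t - v0) d0 = 3 * T + 2
  w1 : HexObs.wind t = 1 → ip (tip v0 d0 t - v0) (rotL d0) = 3 * p
  w1' : HexObs.wind t = -1 → ip (tip v0 d0 t - v0) (rotR d0) = 3 * q
  w2 : HexObs.wind t = 2 → ip (tip v0 d0 t - v0) (rotR d0) = 1 - 3 * s
  w2' : HexObs.wind t = -2 → ip (tip v0 d0 t - v0) (rotL d0) = 1 - 3 * r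
  w3 : HexObs.wind t = 3 ∨ HexObs.wind t = -3 → ip (tip v0 d0 t - v0) d0 = 0
  last : vx v0 d0 t t.length ∈ quad v0 d0 T p q r s
  step : tip v0 d0 t = vx v0 d0 t t.length + dx d0 t t.length

lemma quad_tip {v0 d0 : Pt} (h0 : d0 ∈ dirs) {T p q r s : ℕ} (hT : 1 ≤ T) (hp : 1 ≤ p) (hq : 1 ≤ q)
    (hr : 1 ≤ r) (hs : 1 ≤ s) {t : List Bool} (ht : t ∈ exits (quadF v0 h0 T p q r s) v0 d0) :
    TipAt v0 d0 T p q r s t := by
  have hg := quad_good v0 h0 hT hp hq hr hs
  obtain ⟨h1, h2⟩ := mem_exits.1 ht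
  have h1' : Saw (quad v0 d0 T p q r s) v0 d0 t := by
    rw [← quadF_coe h0]
    exact saw_coe.2 h1
  have h2' : tip v0 d0 t ∉ quad v0 d0 T p q r s := by
    rw [← mem_quadF h0]
    exact h2
  obtain ⟨u, hu, hd, hz, hlast⟩ := poly_exit h0 (quadS v0 d0 T p q r s) (quadS_side h0 T p q r s)
    (quadS_iff h0 T p q r s) (quad_start h0 hT hp hq hr hs) h1' h2'
  obtain ⟨⟨a1, a2, a3, a4, a5⟩, ⟨b1, b2, b3, b4⟩, ⟨c1, c2, c3⟩, ⟨e1, e2⟩, f1⟩ := dirs_distinct d0 h0
  have hw := hg.wind ht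
  rw [rotL_rotL_eq, rotR_rotR_eq] at hw
  rw [rotL_rotL_eq] at a3 b2 c1 e1 e2
  rw [rotR_rotR_eq] at a4 b3 c2 e1 f1
  have a1' := a1.symm
  have a2' := a2.symm
  have a3' := a3.symm
  have a4' := a4.symm
  have a5' := a5.symm
  have b1' := b1.symm
  have b2' := b2.symm
  have b3' := b3.symm
  have b4' := b4.symm
  have c1' := c1.symm
  have c2' := c2.symm
  have c3' := c3.symm
  have e1' := e1.symm
  have e2' := e2.symm
  have f1' := f1.symm
  rcases hu with rfl | rfl | rfl | rfl | rfl | rfl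
  · -- bottom
    simp only [] at hd hz
    rw [side1] at hz
    have hwind : HexObs.wind t = 3 ∨ HexObs.wind t = -3 := by
      rcases hw with ⟨hd', _⟩ | ⟨hd', _⟩ | ⟨hd', _⟩ | ⟨hd', _⟩ | ⟨hd', _⟩ | ⟨_, hw'⟩
      · exact absurd (hd.symm.trans hd') a5
      · exact absurd (hd.symm.trans hd') b4
      · exact absurd (hd.symm.trans hd') c3
      · exact absurd (hd.symm.trans hd') e2
      · exact absurd (hd.symm.trans hd') f1
      · exact hw'
    constructor
    · intro h; omega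
    · intro h; omega
    · intro h; omega
    · intro h; omega
    · intro h; omega
    · intro _; exact hz
    · exact hlast
    · rfl
  · -- top
    simp only [] at hd hz
    rw [side2 h0] at hz
    have hwind : HexObs.wind t = 0 := by
      rcases hw with ⟨_, hw'⟩ | ⟨hd', _⟩ | ⟨hd', _⟩ | ⟨hd', _⟩ | ⟨hd', _⟩ | ⟨hd', _⟩
      · exact hw'
      · exact absurd (hd.symm.trans hd') a1'
      · exact absurd (hd.symm.trans hd') a2'
      · exact absurd (hd.symm.trans hd') a3'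
      · exact absurd (hd.symm.trans hd') a4'
      · exact absurd (hd.symm.trans hd') a5'
    constructor
    · intro _; linarith
    · intro h; omega
    · intro h; omega
    · intro h; omega
    · intro h; omega
    · intro h; omega
    · exact hlast
    · rfl
  · -- left, inwards
    simp only [] at hd hz
    rw [side3 h0] at hz
    have hwind : HexObs.wind t = 1 := by
      rcases hw with ⟨hd', _⟩ | ⟨_, hw'⟩ | ⟨hd', _⟩ | ⟨hd', _⟩ | ⟨hd', _⟩ | ⟨hd', _⟩
      · exact absurd (hd.symm.trans hd') a1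
      · exact hw'
      · exact absurd (hd.symm.trans hd') b1'
      · exact absurd (hd.symm.trans hd') b2'
      · exact absurd (hd.symm.trans hd') b3'
      · exact absurd (hd.symm.trans hd') b4'
    constructor
    · intro h; omega
    · intro _; linarith
    · intro h; omega
    · intro h; omega
    · intro h; omega
    · intro h; omega
    · exact hlast
    · rfl
  · -- right, inwards
    simp only [] at hd hz
    rw [side4 h0] at hz
    have hwind : HexObs.wind t = -1 := by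
      rcases hw with ⟨hd', _⟩ | ⟨hd', _⟩ | ⟨_, hw'⟩ | ⟨hd', _⟩ | ⟨hd', _⟩ | ⟨hd', _⟩
      · exact absurd (hd.symm.trans hd') a2
      · exact absurd (hd.symm.trans hd') b1
      · exact hw'
      · exact absurd (hd.symm.trans hd') c1'
      · exact absurd (hd.symm.trans hd') c2'
      · exact absurd (hd.symm.trans hd') c3'
    constructor
    · intro h; omega
    · intro h; omega
    · intro _; linarith
    · intro h; omega
    · intro h; omega
    · intro h; omega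
    · exact hlast
    · rfl
  · -- right, outwards
    simp only [] at hd hz
    rw [side5 h0] at hz
    have hwind : HexObs.wind t = -2 := by
      rcases hw with ⟨hd', _⟩ | ⟨hd', _⟩ | ⟨hd', _⟩ | ⟨hd', _⟩ | ⟨_, hw'⟩ | ⟨hd', _⟩
      · exact absurd (hd.symm.trans hd') a4
      · exact absurd (hd.symm.trans hd') b3
      · exact absurd (hd.symm.trans hd') c2
      · exact absurd (hd.symm.trans hd') e1
      · exact hw'
      · exact absurd (hd.symm.trans hd') f1'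
    constructor
    · intro h; omega
    · intro h; omega
    · intro h; omega
    · intro h; omega
    · intro _; linarith
    · intro h; omega
    · exact hlast
    · rfl
  · -- left, outwards
    simp only [] at hd hz
    rw [side6 h0] at hz
    have hwind : HexObs.wind t = 2 := by
      rcases hw with ⟨hd', _⟩ | ⟨hd', _⟩ | ⟨hd', _⟩ | ⟨_, hw'⟩ | ⟨hd', _⟩ | ⟨hd', _⟩
      · exact absurd (hd.symm.trans hd') a3
      · exact absurd (hd.symm.trans hd') b2
      · exact absurd (hd.symm.trans hd') c1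
      · exact hw'
      · exact absurd (hd.symm.trans hd') e1'
      · exact absurd (hd.symm.trans hd') e2'
    constructor
    · intro h; omega
    · intro h; omega
    · intro h; omega
    · intro _; linarith
    · intro h; omega
    · intro h; omega
    · exact hlast
    · rfl

/-- generating functions by windings increase with the domain, if the exits stay exits. -/
lemma Wn_mono {Ω Ω' : Finset Pt} {v0 d0 : Pt} {n : ℤ} (hsub : Ω ⊆ Ω')
    (h : ∀ t ∈ exits Ω v0 d0, HexObs.wind t = n → tip v0 d0 t ∉ Ω') : Wn Ω v0 d0 n ≤ Wn Ω' v0 d0 n := by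
  unfold Wn
  apply Finset.sum_le_sum_of_subset_of_nonneg
  · intro t ht
    rw [Finset.mem_filter] at ht ⊢
    have h1 := mem_exits.1 ht.1
    refine ⟨mem_exits.2 ⟨⟨fun i h2 h3 => hsub (h1.1.mem i h2 h3), h1.1.inj⟩, h t ht.1 ht.2⟩, ht.2⟩
  · intro _ _ _
    exact pow_nonneg xc_pos.le _

lemma Wn_zero {Ω : Finset Pt} {v0 d0 : Pt} {n : ℤ} (h : ∀ t ∈ exits Ω v0 d0, HexObs.wind t ≠ n) :
    Wn Ω v0 d0 n = 0 := by
  unfold Wn
  apply Finset.sum_eq_zero
  intro t ht
  rw [Finset.mem_filter] at ht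
  exact absurd ht.2 (h t ht.1)

end HexObs
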